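import Pool.Agent.H85.LK.Targets

/-!
Module HK of board lk_modules: heat kernel facts.
-/

set_option autoImplicit false

open MeasureTheory Metric Set ProbabilityTheory
open scoped ENNReal

namespace Pool.Agent.H84.LK

open Pool.Agent.H85.LK

lemma integral_exp (N : ℕ) (b : ℝ) (hb : 0 < b) :
    ∫ v : E N, Real.exp (-b * ‖v‖ ^ 2) = (Real.pi / b) ^ ((N : ℝ) / 2) := by
  rw [GaussianFourier.integral_rexp_neg_mul_sq_norm hb, finrank_euclideanSpace_fin]

lemma integrable_exp (N : ℕ) (b : ℝ) (hb : 0 < b) :
    Integrable (fun v : E N => Real.exp (-b * ‖v‖ ^ 2)) := by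
  apply Integrable.of_integral_ne_zero
  rw [integral_exp N b hb]
  have : 0 < Real.pi / b := div_pos Real.pi_pos hb
  positivity

lemma hk_eq (N : ℕ) (s : ℝ) (hs : 0 < s) : hk N s =
    fun z => (4 * Real.pi * s) ^ (-(N : ℝ) / 2) * Real.exp (-(1 / (4 * s)) * ‖z‖ ^ 2) := by
  funext z
  unfold hk
  congr 2
  field_simp

/-- the one-dimensional factor -/
noncomputable def ph (s t : ℝ) : ℝ := gaussianPDFReal 0 (Real.toNNReal (2 * s)) t

lemma toNN (s : ℝ) (hs : 0 < s) : ((Real.toNNReal (2 * s) : NNReal) : ℝ) = 2 * s :=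
  Real.coe_toNNReal _ (by positivity)

lemma toNN_ne (s : ℝ) (hs : 0 < s) : (Real.toNNReal (2 * s) : NNReal) ≠ 0 := by
  have : 0 < Real.toNNReal (2 * s) := Real.toNNReal_pos.2 (by positivity)
  exact this.ne'

lemma ph_zero (s : ℝ) (hs : 0 < s) : ∫ t, ph s t = 1 :=
  integral_gaussianPDFReal_eq_one 0 (toNN_ne s hs)

lemma ph_one (s : ℝ) (hs : 0 < s) : ∫ t, ph s t * t = 0 := by
  have h := integral_gaussianReal_eq_integral_smul (μ := 0) (v := Real.toNNReal (2 * s))
    (f := fun t : ℝ => t) (toNN_ne s hs)
  rw [integral_id_gaussianReal] at h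
  simpa [ph, smul_eq_mul] using h.symm

lemma ph_two (s : ℝ) (hs : 0 < s) : ∫ t, ph s t * t ^ 2 = 2 * s := by
  have h := integral_gaussianReal_eq_integral_smul (μ := 0) (v := Real.toNNReal (2 * s))
    (f := fun t : ℝ => t ^ 2) (toNN_ne s hs)
  have h2 : ∫ t, t ^ 2 ∂(gaussianReal 0 (Real.toNNReal (2 * s))) = 2 * s := by
    have h3 := variance_fun_id_gaussianReal (μ := 0) (v := Real.toNNReal (2 * s))
    rw [variance_eq_integral (by fun_prop), integral_id_gaussianReal] at h3
    simp only [sub_zero] at h3
    rw [h3]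
    exact toNN s hs
  rw [h2] at h
  simpa [ph, smul_eq_mul] using h.symm

lemma hk_prod (N : ℕ) (s : ℝ) (hs : 0 < s) (z : E N) : hk N s z = ∏ i, ph s (z i) := by
  have hps : 0 < 4 * Real.pi * s := by positivity
  have h1 : ∀ t, ph s t = (4 * Real.pi * s) ^ (-(1 : ℝ) / 2) * Real.exp (-t ^ 2 / (4 * s)) := by
    intro t
    unfold ph gaussianPDFReal
    rw [toNN s hs]
    have h2 : 2 * Real.pi * (2 * s) = 4 * Real.pi * s := by ring
    have h3 : 2 * (2 * s) = 4 * s := by ring
    rw [h2, h3, sub_zero]
    congr 1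
    rw [Real.sqrt_eq_rpow, ← Real.rpow_neg hps.le]
    congr 1
    ring
  simp only [h1]
  rw [Finset.prod_mul_distrib, Finset.prod_const, Finset.card_univ, Fintype.card_fin,
    ← Real.exp_sum]
  unfold hk
  congr 1
  · rw [← Real.rpow_natCast, ← Real.rpow_mul hps.le]
    congr 1
    ring
  · congr 1
    rw [EuclideanSpace.real_norm_sq_eq, ← Finset.sum_div, Finset.sum_neg_distrib]

lemma moment (N : ℕ) (s : ℝ) (hs : 0 < s) (j l : Fin N) :
    ∫ z : E N, hk N s z * (z j * z l) = if j = l then 2 * s else 0 := by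
  classical
  have h1 : ∀ z : E N, hk N s z * (z j * z l) =
      ∏ i, (ph s (z i) * ((if i = j then z i else 1) * (if i = l then z i else 1))) := by
    intro z
    rw [Finset.prod_mul_distrib, Finset.prod_mul_distrib, ← hk_prod N s hs z]
    simp
  simp only [h1]
  rw [← (PiLp.volume_preserving_toLp (Fin N)).integral_comp
    (MeasurableEquiv.toLp 2 (Fin N → ℝ)).measurableEmbedding]
  have h2 := integral_fintype_prod_volume_eq_prod (ι := Fin N) (E := fun _ => ℝ) (𝕜 := ℝ)
    (fun i t => ph s t * ((if i = j then t else 1) * (if i = l then t else 1)))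
  refine Eq.trans ?_ (h2.trans ?_)
  · rfl
  by_cases hjl : j = l
  · subst hjl
    rw [if_pos rfl, Finset.prod_eq_single j]
    · simp only [if_true]
      rw [← ph_two s hs]
      congr 1
      funext t
      ring
    · intro i _ hij
      simp only [if_neg hij, mul_one]
      exact ph_zero s hs
    · intro h
      exact absurd (Finset.mem_univ j) h
  · rw [if_neg hjl]
    apply Finset.prod_eq_zero (Finset.mem_univ j)
    simp only [if_true, if_neg hjl, mul_one]
    exact ph_one s hs

theorem pf_HK : T_HK := by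
  classical
  intro N s hs
  have hps : 0 < 4 * Real.pi * s := by positivity
  have hc : 0 < (4 * Real.pi * s) ^ (-(N : ℝ) / 2) := Real.rpow_pos_of_pos hps _
  have hpos : ∀ z, 0 < hk N s z := by
    intro z
    unfold hk
    positivity
  have hcont : Continuous (hk N s) := by
    unfold hk
    fun_prop
  have hint : Integrable (hk N s) := by
    rw [hk_eq N s hs]
    exact (integrable_exp N _ (by positivity)).const_mul _
  have hone : ∫ z, hk N s z = 1 := by
    rw [hk_eq N s hs, integral_const_mul, integral_exp N _ (by positivity)]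
    have h1 : Real.pi / (1 / (4 * s)) = 4 * Real.pi * s := by
      field_simp
    rw [h1, ← Real.rpow_add hps]
    have h2 : -(N : ℝ) / 2 + (N : ℝ) / 2 = 0 := by ring
    rw [h2, Real.rpow_zero]
  have hint8 : Integrable (fun z : E N => Real.exp (-(1 / (8 * s)) * ‖z‖ ^ 2)) :=
    integrable_exp N _ (by positivity)
  have hint2 : Integrable (fun z => hk N s z * ‖z‖ ^ 2) := by
    refine Integrable.mono' (hint8.const_mul ((4 * Real.pi * s) ^ (-(N : ℝ) / 2) * (8 * s)))
      (hcont.mul (continuous_norm.pow 2)).aestronglyMeasurable ?_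
    filter_upwards with z
    rw [Real.norm_of_nonneg (mul_nonneg (hpos z).le (by positivity)), hk_eq N s hs]
    have h1 : ‖z‖ ^ 2 / (8 * s) ≤ Real.exp (‖z‖ ^ 2 / (8 * s)) := by
      linarith [Real.add_one_le_exp (‖z‖ ^ 2 / (8 * s))]
    have h2 : ‖z‖ ^ 2 ≤ 8 * s * Real.exp (‖z‖ ^ 2 / (8 * s)) := by
      rw [div_le_iff₀ (by positivity)] at h1
      linarith
    have h3 : Real.exp (-(1 / (8 * s)) * ‖z‖ ^ 2) =
        Real.exp (-(1 / (4 * s)) * ‖z‖ ^ 2) * Real.exp (‖z‖ ^ 2 / (8 * s)) := by
      rw [← Real.exp_add]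
      congr 1
      field_simp
      ring
    simp only
    rw [h3]
    calc (4 * Real.pi * s) ^ (-(N : ℝ) / 2) * Real.exp (-(1 / (4 * s)) * ‖z‖ ^ 2) * ‖z‖ ^ 2
        ≤ (4 * Real.pi * s) ^ (-(N : ℝ) / 2) * Real.exp (-(1 / (4 * s)) * ‖z‖ ^ 2) *
          (8 * s * Real.exp (‖z‖ ^ 2 / (8 * s))) :=
          mul_le_mul_of_nonneg_left h2 (by positivity)
      _ = _ := by ring
  have hinner : ∀ z a : E N, inner ℝ z a = ∑ j, z j * a j := by
    intro z a
    simp [PiLp.inner_apply, mul_comm]
  have hjl : ∀ j l : Fin N, Integrable (fun z : E N => hk N s z * (z j * z l)) := by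
    intro j l
    refine Integrable.mono' hint2 ?_ ?_
    · apply Continuous.aestronglyMeasurable
      exact hcont.mul (by fun_prop)
    · filter_upwards with z
      rw [norm_mul, Real.norm_of_nonneg (hpos z).le]
      apply mul_le_mul_of_nonneg_left _ (hpos z).le
      rw [norm_mul, pow_two]
      exact mul_le_mul (PiLp.norm_apply_le z j) (PiLp.norm_apply_le z l) (norm_nonneg _)
        (norm_nonneg _)
  refine ⟨hpos, hcont, hint, hone, hint2, ?_, ?_, ?_⟩
  · intro a
    have h1 : ∀ z : E N, hk N s z * inner ℝ z a ^ 2 =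
        ∑ j, ∑ l, (a j * a l) * (hk N s z * (z j * z l)) := by
      intro z
      rw [hinner, pow_two, Finset.sum_mul_sum, Finset.mul_sum]
      refine Finset.sum_congr rfl fun j _ => ?_
      rw [Finset.mul_sum]
      refine Finset.sum_congr rfl fun l _ => ?_
      ring
    simp only [h1]
    rw [integral_finsetSum]
    · have h2 : ∀ j : Fin N, ∫ z : E N, ∑ l, (a j * a l) * (hk N s z * (z j * z l)) =
          a j * a j * (2 * s) := by
        intro j
        rw [integral_finsetSum]
        · simp only [integral_const_mul, moment N s hs]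
          rw [Finset.sum_eq_single j]
          · rw [if_pos rfl]
          · intro l _ hl
            rw [if_neg (fun h => hl h.symm), mul_zero]
          · intro h
            exact absurd (Finset.mem_univ j) h
        · intro l _
          exact (hjl j l).const_mul _
      rw [Finset.sum_congr rfl fun j _ => h2 j, EuclideanSpace.real_norm_sq_eq, Finset.mul_sum]
      refine Finset.sum_congr rfl fun j _ => ?_
      ring
    · intro j _
      apply integrable_finsetSum
      intro l _
      exact (hjl j l).const_mul _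
  · intro a
    have h1 := integral_neg_eq_self (fun z : E N => hk N s z * inner ℝ z a) volume
    have h2 : ∀ z : E N, hk N s (-z) * inner ℝ (-z) a = -(hk N s z * inner ℝ z a) := by
      intro z
      unfold hk
      rw [norm_neg, inner_neg_left]
      ring
    simp only [h2] at h1
    rw [integral_neg] at h1
    linarith
  · intro η hη
    set c := (4 * Real.pi * s) ^ (-(N : ℝ) / 2) with hcd
    have hbig : Integrable (fun z : E N => Real.exp (-η ^ 2 / (8 * s)) *
        (c * Real.exp (-(1 / (8 * s)) * ‖z‖ ^ 2))) := (hint8.const_mul _).const_mul _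
    calc ∫ z in {z : E N | η ≤ ‖z‖}, hk N s z
        ≤ ∫ z in {z : E N | η ≤ ‖z‖}, Real.exp (-η ^ 2 / (8 * s)) *
          (c * Real.exp (-(1 / (8 * s)) * ‖z‖ ^ 2)) := by
          refine setIntegral_mono_on hint.integrableOn hbig.integrableOn ?_ ?_
          · exact measurableSet_le measurable_const continuous_norm.measurable
          · intro z hz
            rw [Set.mem_ofPred_eq] at hz
            rw [hk_eq N s hs]
            simp only
            have h1 : Real.exp (-(1 / (4 * s)) * ‖z‖ ^ 2) ≤ Real.exp (-η ^ 2 / (8 * s)) *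
                Real.exp (-(1 / (8 * s)) * ‖z‖ ^ 2) := by
              rw [← Real.exp_add]
              apply Real.exp_le_exp.2
              have h2 : η ^ 2 ≤ ‖z‖ ^ 2 := by
                exact pow_le_pow_left₀ hη hz 2
              have h3 : -η ^ 2 / (8 * s) + -(1 / (8 * s)) * ‖z‖ ^ 2 - -(1 / (4 * s)) * ‖z‖ ^ 2 =
                  (‖z‖ ^ 2 - η ^ 2) / (8 * s) := by
                field_simp
                ring
              have h4 : 0 ≤ (‖z‖ ^ 2 - η ^ 2) / (8 * s) := by
                apply div_nonneg _ (by positivity)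
                linarith
              linarith
            calc c * Real.exp (-(1 / (4 * s)) * ‖z‖ ^ 2) ≤ c * (Real.exp (-η ^ 2 / (8 * s)) *
                Real.exp (-(1 / (8 * s)) * ‖z‖ ^ 2)) := mul_le_mul_of_nonneg_left h1 hc.le
              _ = _ := by ring
      _ ≤ ∫ z : E N, Real.exp (-η ^ 2 / (8 * s)) *
          (c * Real.exp (-(1 / (8 * s)) * ‖z‖ ^ 2)) := by
          apply setIntegral_le_integral hbig
          filter_upwards with z
          show (0 : ℝ) ≤ _
          positivity
      _ = 2 ^ ((N : ℝ) / 2) * Real.exp (-η ^ 2 / (8 * s)) := by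
          rw [integral_const_mul, integral_const_mul, integral_exp N _ (by positivity)]
          have h1 : Real.pi / (1 / (8 * s)) = 2 * (4 * Real.pi * s) := by
            field_simp
            ring
          rw [h1, Real.mul_rpow (by norm_num) hps.le]
          have h2 : c * (4 * Real.pi * s) ^ ((N : ℝ) / 2) = 1 := by
            rw [hcd, ← Real.rpow_add hps]
            have h3 : -(N : ℝ) / 2 + (N : ℝ) / 2 = 0 := by ring
            rw [h3, Real.rpow_zero]
          calc Real.exp (-η ^ 2 / (8 * s)) *
              (c * ((2 : ℝ) ^ ((N : ℝ) / 2) * (4 * Real.pi * s) ^ ((N : ℝ) / 2)))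
              = Real.exp (-η ^ 2 / (8 * s)) * (2 : ℝ) ^ ((N : ℝ) / 2) *
                (c * (4 * Real.pi * s) ^ ((N : ℝ) / 2)) := by ring
            _ = _ := by rw [h2]; ring

end Pool.Agent.H84.LK
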